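import Pool.Agent.H211.HY.Stm2
import Pool.Graph.R_seed8.H792R2.CE.D3
import Pool.Graph.R_seed8.H792R2.CE.D6

/-!
# Real multiples of a holomorphic function which are Cauchy series
-/

set_option autoImplicit false

open Filter Topology Metric Set MeasureTheory
open scoped ENNReal

namespace Pool.Agent.H344.HY211

open Pool.Agent.H792R2.CE Pool.Agent.H792R2.CE.D6x

/-! ### The kernel integrals -/

/-- the rotation symmetry -/
theorem int_conj_div (r : ℝ) :
    ∫ z in ball (0 : ℂ) r, (starRingEnd ℂ) z / z = 0 := by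
  have hI : (Complex.I : ℂ) ∈ Submonoid.unitSphere ℂ :=
    mem_sphere_zero_iff_norm.2 Complex.norm_I
  let a : Circle := ⟨Complex.I, hI⟩
  have ha : (a : ℂ) = Complex.I := rfl
  have hmp : MeasurePreserving (rotation a) (volume : Measure ℂ) volume :=
    (rotation a).measurePreserving
  have hemb : MeasurableEmbedding (rotation a) := (rotation a).toHomeomorph.measurableEmbedding
  have h1 := hmp.setIntegral_preimage_emb hemb (fun z : ℂ => (starRingEnd ℂ) z / z) (ball 0 r)
  have h2 : (rotation a) ⁻¹' ball (0 : ℂ) r = ball 0 r := by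
    ext z
    rw [mem_preimage, mem_ball_zero_iff, mem_ball_zero_iff, LinearIsometryEquiv.norm_map]
  rw [h2] at h1
  have h3 : ∀ z : ℂ, (starRingEnd ℂ) (rotation a z) / rotation a z =
      -((starRingEnd ℂ) z / z) := by
    intro z
    rw [rotation_apply, ha, map_mul, Complex.conj_I]
    rcases eq_or_ne z 0 with hz | hz
    · simp [hz]
    · field_simp
  simp_rw [h3] at h1
  rw [integral_neg] at h1
  have h4 : (2 : ℂ) * ∫ z in ball (0 : ℂ) r, (starRingEnd ℂ) z / z = 0 := by
    linear_combination -h1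
  simpa using h4

/-- translation to the center `q` -/
theorem int_conj_div' (q : ℂ) (r : ℝ) :
    ∫ z in ball q r, (starRingEnd ℂ) (z - q) / (z - q) = 0 := by
  have hmp : MeasurePreserving (fun z : ℂ => z - q) volume volume :=
    measurePreserving_sub_right volume q
  have hemb : MeasurableEmbedding (fun z : ℂ => z - q) :=
    (Homeomorph.subRight q).measurableEmbedding
  have h1 := hmp.setIntegral_preimage_emb hemb (fun z : ℂ => (starRingEnd ℂ) z / z) (ball 0 r)
  rw [int_conj_div r] at h1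
  have h2 : (fun z : ℂ => z - q) ⁻¹' ball (0 : ℂ) r = ball q r := by
    ext z
    rw [mem_preimage, mem_ball_zero_iff, mem_ball_iff_norm]
  rw [h2] at h1
  exact h1

theorem integrable_bdd (q : ℂ) (r : ℝ) (f : ℂ → ℂ) (hf : Measurable f) (C : ℝ)
    (hC : ∀ z, ‖f z‖ ≤ C) : IntegrableOn f (ball q r) := by
  refine Measure.integrableOn_of_bounded (M := C) measure_ball_lt_top.ne hf.aestronglyMeasurable ?_
  exact Eventually.of_forall fun z => hC z

theorem norm_conj_div (z : ℂ) : ‖(starRingEnd ℂ) z / z‖ ≤ 1 := by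
  rw [norm_div, RCLike.norm_conj]
  exact div_self_le_one _

theorem int_re_div (q : ℂ) {r : ℝ} (hr : 0 < r) :
    ∫ z in ball q r, (((z - q).re : ℝ) : ℂ) / (z - q) = ((Real.pi * r ^ 2 : ℝ) : ℂ) * (1 / 2) := by
  have h1 : ∀ z : ℂ, (((z - q).re : ℝ) : ℂ) / (z - q) =
      (1 / 2) * ((z - q) / (z - q)) + (1 / 2) * ((starRingEnd ℂ) (z - q) / (z - q)) := by
    intro z
    rw [Complex.re_eq_add_conj]
    ring
  have i1 : IntegrableOn (fun z : ℂ => (z - q) / (z - q)) (ball q r) :=
    integrable_bdd q r _ (by fun_prop) 1 fun z => by rw [norm_div]; exact div_self_le_one _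
  have i2 : IntegrableOn (fun z : ℂ => (starRingEnd ℂ) (z - q) / (z - q)) (ball q r) :=
    integrable_bdd q r _ (by fun_prop) 1 fun z => norm_conj_div _
  simp_rw [h1]
  rw [integral_add (i1.const_mul _) (i2.const_mul _), integral_const_mul, integral_const_mul,
    int_conj_div' q r]
  have h2 := J_self q hr
  unfold J at h2
  rw [h2]
  ring

theorem int_im_div (q : ℂ) {r : ℝ} (hr : 0 < r) :
    ∫ z in ball q r, (((z - q).im : ℝ) : ℂ) / (z - q) =
      ((Real.pi * r ^ 2 : ℝ) : ℂ) * (-Complex.I / 2) := by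
  have h1 : ∀ z : ℂ, (((z - q).im : ℝ) : ℂ) / (z - q) =
      (-Complex.I / 2) * ((z - q) / (z - q)) +
        (Complex.I / 2) * ((starRingEnd ℂ) (z - q) / (z - q)) := by
    intro z
    have h2 : (((z - q).im : ℝ) : ℂ) = (-Complex.I / 2) * (z - q) +
        (Complex.I / 2) * (starRingEnd ℂ) (z - q) := by
      rw [Complex.im_eq_sub_conj]
      rw [div_eq_iff (by simp [Complex.I_ne_zero])]
      ring_nf
      rw [Complex.I_sq]
      ring
    rw [h2]
    ring
  have i1 : IntegrableOn (fun z : ℂ => (z - q) / (z - q)) (ball q r) :=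
    integrable_bdd q r _ (by fun_prop) 1 fun z => by rw [norm_div]; exact div_self_le_one _
  have i2 : IntegrableOn (fun z : ℂ => (starRingEnd ℂ) (z - q) / (z - q)) (ball q r) :=
    integrable_bdd q r _ (by fun_prop) 1 fun z => norm_conj_div _
  simp_rw [h1]
  rw [integral_add (i1.const_mul _) (i2.const_mul _), integral_const_mul, integral_const_mul,
    int_conj_div' q r]
  have h2 := J_self q hr
  unfold J at h2
  rw [h2]
  ring

/-! ### The masses vanish -/

/-- the weighted kernel integral -/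
noncomputable def Jw (w : ℂ → ℝ) (K : ℂ → ℂ) (q v : ℂ) (r : ℝ) : ℂ :=
  ∫ z in ball q r, ((w (z - q) : ℝ) : ℂ) * K z / (z - v)

section W

variable {w : ℂ → ℝ} {K : ℂ → ℂ} {q : ℂ} {r0 M : ℝ} (hw : Continuous w)
  (hwb : ∀ u, |w u| ≤ ‖u‖) (hK : ContinuousOn K (closedBall q r0))
  (hM : ∀ z ∈ closedBall q r0, ‖K z‖ ≤ M)
include hw hwb hK hM

omit hwb hM in
theorem meas_ker {r : ℝ} (hr : r ≤ r0) (v : ℂ) :
    AEStronglyMeasurable (fun z => ((w (z - q) : ℝ) : ℂ) * K z / (z - v))
      (volume.restrict (ball q r)) := by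
  have h1 : AEStronglyMeasurable K (volume.restrict (ball q r)) :=
    (hK.mono (ball_subset_closedBall.trans (closedBall_subset_closedBall hr))).aestronglyMeasurable
      measurableSet_ball
  have h2 : Continuous fun z : ℂ => ((w (z - q) : ℝ) : ℂ) := by fun_prop
  have h3 : Measurable fun z : ℂ => (z - v)⁻¹ := by fun_prop
  exact (h2.aestronglyMeasurable.mul h1).mul h3.aestronglyMeasurable

omit hw hK in
theorem ker_le {r : ℝ} (hr0 : 0 < r) (hr : r ≤ r0) (v : ℂ) {z : ℂ} (hz : z ∈ ball q r) :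
    ‖((w (z - q) : ℝ) : ℂ) * K z / (z - v)‖ ≤ r * M * ‖(z - v)⁻¹‖ := by
  have hz' := mem_ball_iff_norm.1 hz
  have h1 : ‖K z‖ ≤ M := hM z (closedBall_subset_closedBall hr (ball_subset_closedBall hz))
  rw [div_eq_mul_inv, norm_mul, norm_mul, Complex.norm_real, Real.norm_eq_abs]
  have h2 : |w (z - q)| ≤ r := (hwb _).trans hz'.le
  gcongr

omit hw hK in
theorem lintJw (C : ℝ≥0∞) (hC : ∀ v : ℂ, ∫⁻ x in ball (0 : ℂ) 1, ‖(x - v)⁻¹‖ₑ ≤ C)
    (hM0 : 0 ≤ M) {r : ℝ} (hr0 : 0 < r) (hr : r ≤ r0) (v : ℂ) :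
    ∫⁻ z in ball q r, ‖((w (z - q) : ℝ) : ℂ) * K z / (z - v)‖ₑ ≤
      ENNReal.ofReal (r ^ 2 * M) * C := by
  calc ∫⁻ z in ball q r, ‖((w (z - q) : ℝ) : ℂ) * K z / (z - v)‖ₑ
      ≤ ∫⁻ z in ball q r, ENNReal.ofReal (r * M) * ‖(z - v)⁻¹‖ₑ := by
        apply setLIntegral_mono' measurableSet_ball
        intro z hz
        rw [← ofReal_norm, ← ofReal_norm, ← ENNReal.ofReal_mul (by positivity)]
        exact ENNReal.ofReal_le_ofReal (ker_le hwb hM hr0 hr v hz)
    _ = ENNReal.ofReal (r * M) * ∫⁻ z in ball q r, ‖(z - v)⁻¹‖ₑ :=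
        lintegral_const_mul _ (by fun_prop)
    _ ≤ ENNReal.ofReal (r * M) * (ENNReal.ofReal r * C) := mul_le_mul_right (scale C hC q v hr0) _
    _ = ENNReal.ofReal (r ^ 2 * M) * C := by
        rw [← mul_assoc, ← ENNReal.ofReal_mul (by positivity)]
        congr 2
        ring

omit hw hK in
theorem normJw {C : ℝ≥0∞} (hCt : C ≠ ⊤)
    (hC : ∀ v : ℂ, ∫⁻ x in ball (0 : ℂ) 1, ‖(x - v)⁻¹‖ₑ ≤ C)
    (hM0 : 0 ≤ M) {r : ℝ} (hr0 : 0 < r) (hr : r ≤ r0) (v : ℂ) :
    ‖Jw w K q v r‖ ≤ r ^ 2 * M * C.toReal := by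
  have h1 := (enorm_integral_le_lintegral_enorm (μ := volume.restrict (ball q r))
    (fun z => ((w (z - q) : ℝ) : ℂ) * K z / (z - v))).trans (lintJw hwb hM C hC hM0 hr0 hr v)
  have h2 := ENNReal.toReal_mono (by finiteness) h1
  rw [toReal_enorm, ENNReal.toReal_mul, ENNReal.toReal_ofReal (by positivity)] at h2
  exact h2

omit hw hK in
theorem Jw_ne (v : ℂ) (hv : v ≠ q) (hM0 : 0 ≤ M) {r : ℝ} (hr0 : 0 < r) (hr : r ≤ r0)
    (hr2 : 2 * r ≤ ‖v - q‖) :
    ‖Jw w K q v r‖ ≤ (2 * r / ‖v - q‖) * M * (Real.pi * r ^ 2) := by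
  have h0 : 0 < ‖v - q‖ := norm_pos_iff.2 (sub_ne_zero.2 hv)
  have h1 := norm_setIntegral_le_of_norm_le_const (μ := (volume : Measure ℂ)) (s := ball q r)
    (f := fun z => ((w (z - q) : ℝ) : ℂ) * K z / (z - v)) (C := 2 * r / ‖v - q‖ * M)
    measure_ball_lt_top (by
      intro x hx
      have hx' := mem_ball_iff_norm.1 hx
      refine (ker_le hwb hM hr0 hr v hx).trans ?_
      have h2 : ‖v - q‖ / 2 ≤ ‖x - v‖ := by
        have h3 : ‖v - q‖ ≤ ‖x - q‖ + ‖x - v‖ := by
          calc ‖v - q‖ = ‖(x - q) - (x - v)‖ := by congr 1; ring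
            _ ≤ _ := norm_sub_le _ _
        linarith
      have h4 : ‖(x - v)⁻¹‖ ≤ 2 / ‖v - q‖ := by
        rw [norm_inv]
        calc ‖x - v‖⁻¹ ≤ (‖v - q‖ / 2)⁻¹ := inv_anti₀ (by positivity) h2
          _ = 2 / ‖v - q‖ := by rw [inv_div]
      calc r * M * ‖(x - v)⁻¹‖ ≤ r * M * (2 / ‖v - q‖) := by gcongr
        _ = 2 * r / ‖v - q‖ * M := by ring)
  refine h1.trans (le_of_eq ?_)
  rw [← volball q hr0, measureReal_restrict_apply_univ]

/-- the term with the pole at the center -/
theorem Jw_self {c : ℂ} (hr00 : 0 < r0)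
    (hc : ∀ r : ℝ, 0 < r → ∫ z in ball q r, ((w (z - q) : ℝ) : ℂ) / (z - q) =
      ((Real.pi * r ^ 2 : ℝ) : ℂ) * c) :
    Tendsto (fun r : ℝ => Jw w K q q r / ((Real.pi * r ^ 2 : ℝ) : ℂ)) (𝓝[>] 0) (𝓝 (c * K q)) := by
  rw [Metric.tendsto_nhdsWithin_nhds]
  intro ε hε
  have hKq : ContinuousWithinAt K (closedBall q r0) q := hK q (mem_closedBall_self hr00.le)
  rw [Metric.continuousWithinAt_iff] at hKq
  obtain ⟨δ, hδ, hd⟩ := hKq (ε / 2) (by positivity)
  refine ⟨min δ r0, lt_min hδ hr00, ?_⟩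
  intro r hr hr'
  have hr0 : 0 < r := hr
  rw [Real.dist_eq, sub_zero, abs_of_pos hr0] at hr'
  have hrδ : r < δ := hr'.trans_le (min_le_left _ _)
  have hrr : r ≤ r0 := hr'.le.trans (min_le_right _ _)
  have hpr : 0 < Real.pi * r ^ 2 := by positivity
  have hpc : ((Real.pi * r ^ 2 : ℝ) : ℂ) ≠ 0 := by exact_mod_cast hpr.ne'
  have hb : ∀ z ∈ ball q r, ‖((w (z - q) : ℝ) : ℂ) * K z / (z - q) -
      ((w (z - q) : ℝ) : ℂ) / (z - q) * K q‖ ≤ ε / 2 := by
    intro z hz
    have h1 : ((w (z - q) : ℝ) : ℂ) * K z / (z - q) - ((w (z - q) : ℝ) : ℂ) / (z - q) * K q =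
        ((w (z - q) : ℝ) : ℂ) / (z - q) * (K z - K q) := by ring
    rw [h1, norm_mul, norm_div, Complex.norm_real, Real.norm_eq_abs]
    have h2 : |w (z - q)| / ‖z - q‖ ≤ 1 := div_le_one_of_le₀ (hwb _) (norm_nonneg _)
    have h3 : dist (K z) (K q) < ε / 2 := hd
      (closedBall_subset_closedBall hrr (ball_subset_closedBall hz))
      ((mem_ball.1 hz).trans hrδ)
    rw [dist_eq_norm] at h3
    calc |w (z - q)| / ‖z - q‖ * ‖K z - K q‖ ≤ 1 * (ε / 2) := by gcongr
      _ = ε / 2 := one_mul _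
  have i1 : IntegrableOn (fun z => ((w (z - q) : ℝ) : ℂ) * K z / (z - q)) (ball q r) := by
    have hfm : IsFiniteMeasure (volume.restrict (ball q r)) :=
      ⟨by rw [Measure.restrict_apply_univ]; exact measure_ball_lt_top⟩
    refine Integrable.of_bound (meas_ker hw hK hrr q) M ?_
    refine (ae_restrict_iff' measurableSet_ball).2 (Eventually.of_forall fun z hz => ?_)
    have h1 : ‖K z‖ ≤ M := hM z (closedBall_subset_closedBall hrr (ball_subset_closedBall hz))
    have h2 : |w (z - q)| / ‖z - q‖ ≤ 1 := div_le_one_of_le₀ (hwb _) (norm_nonneg _)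
    rw [norm_div, norm_mul, Complex.norm_real, Real.norm_eq_abs]
    calc |w (z - q)| * ‖K z‖ / ‖z - q‖ = |w (z - q)| / ‖z - q‖ * ‖K z‖ := by ring
      _ ≤ 1 * M := by gcongr
      _ = M := one_mul _
  have i2 : IntegrableOn (fun z => ((w (z - q) : ℝ) : ℂ) / (z - q) * K q) (ball q r) := by
    refine Integrable.mul_const (integrable_bdd q r _ ?_ 1 fun z => ?_) _
    · have h2 : Measurable fun z : ℂ => ((w (z - q) : ℝ) : ℂ) := by
        have : Continuous fun z : ℂ => ((w (z - q) : ℝ) : ℂ) := by fun_prop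
        exact this.measurable
      exact h2.div (by fun_prop)
    · rw [norm_div, Complex.norm_real, Real.norm_eq_abs]
      exact div_le_one_of_le₀ (hwb _) (norm_nonneg _)
  have h4 : Jw w K q q r - ((Real.pi * r ^ 2 : ℝ) : ℂ) * (c * K q) =
      ∫ z in ball q r, (((w (z - q) : ℝ) : ℂ) * K z / (z - q) -
        ((w (z - q) : ℝ) : ℂ) / (z - q) * K q) := by
    rw [integral_sub i1 i2, integral_mul_const, hc r hr0]
    unfold Jw
    ring
  have h5 := norm_setIntegral_le_of_norm_le_const (μ := (volume : Measure ℂ)) (s := ball q r)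
    measure_ball_lt_top hb
  rw [← h4, ← measureReal_restrict_apply_univ, volball q hr0] at h5
  rw [dist_eq_norm]
  have h6 : Jw w K q q r / ((Real.pi * r ^ 2 : ℝ) : ℂ) - c * K q =
      (Jw w K q q r - ((Real.pi * r ^ 2 : ℝ) : ℂ) * (c * K q)) / ((Real.pi * r ^ 2 : ℝ) : ℂ) := by
    field_simp
  rw [h6, norm_div, Complex.norm_real, Real.norm_of_nonneg hpr.le, div_lt_iff₀ hpr]
  nlinarith

end W

theorem tsum_enorm_ne_top {a : ℕ → ℂ} (ha : Summable fun j => ‖a j‖) : ∑' j, ‖a j‖ₑ ≠ ⊤ := by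
  have h3 : ∑' j, ‖a j‖ₑ = ENNReal.ofReal (∑' j, ‖a j‖) := by
    rw [ENNReal.ofReal_tsum_of_nonneg (fun j => norm_nonneg _) ha]
    simp_rw [ofReal_norm]
  rw [h3]
  exact ENNReal.ofReal_ne_top

/-- the limit of the weighted means -/
theorem mass_lim {a p : ℕ → ℂ} (ha : Summable fun j => ‖a j‖) {H k : ℂ → ℂ}
    (hH : ∀ᵐ z : ℂ, (Summable fun j => ‖a j / (z - p j)‖) ∧ H z = ∑' j, a j / (z - p j))
    {q : ℂ} {r0 : ℝ} (hr00 : 0 < r0) (hk : ContinuousOn k (closedBall q r0))
    (hk0 : ∀ z ∈ closedBall q r0, k z ≠ 0)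
    (hreal : ∀ᵐ z : ℂ, z ∈ ball q r0 → ∃ t : ℝ, H z = (t : ℂ) * k z)
    {w : ℂ → ℝ} (hw : Continuous w) (hwb : ∀ u, |w u| ≤ ‖u‖) {c : ℂ}
    (hc : ∀ r : ℝ, 0 < r → ∫ z in ball q r, ((w (z - q) : ℝ) : ℂ) / (z - q) =
      ((Real.pi * r ^ 2 : ℝ) : ℂ) * c) :
    (c * (k q)⁻¹ * ∑' j, (open Classical in if p j = q then a j else 0)).im = 0 := by
  classical
  obtain ⟨C, hCt, hC⟩ := D3a_kernel 1
  set K : ℂ → ℂ := fun z => (k z)⁻¹ with hKdef
  have hK : ContinuousOn K (closedBall q r0) := hk.inv₀ hk0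
  obtain ⟨M, hM⟩ := (isCompact_closedBall q r0).exists_bound_of_continuousOn hK
  have hM0 : 0 ≤ M := (norm_nonneg _).trans (hM q (mem_closedBall_self hr00.le))
  -- the sums are real
  have hsum : ∀ r : ℝ, 0 < r → r ≤ r0 → (∑' j, a j * Jw w K q (p j) r).im = 0 := by
    intro r hr hrr
    have h1 : ∫ z in ball q r, ∑' j, a j * (((w (z - q) : ℝ) : ℂ) * K z / (z - p j)) =
        ∑' j, ∫ z in ball q r, a j * (((w (z - q) : ℝ) : ℂ) * K z / (z - p j)) := by
      apply integral_tsum
      · intro j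
        exact (meas_ker hw hK hrr (p j)).const_mul (a j)
      · have h2 : ∀ j, ∫⁻ z in ball q r, ‖a j * (((w (z - q) : ℝ) : ℂ) * K z / (z - p j))‖ₑ ≤
            ‖a j‖ₑ * (ENNReal.ofReal (r ^ 2 * M) * C) := by
          intro j
          simp_rw [enorm_mul (a j)]
          rw [lintegral_const_mul' _ _ (by finiteness)]
          exact mul_le_mul_right (lintJw hwb hM C hC hM0 hr hrr (p j)) _
        refine ne_of_lt (lt_of_le_of_lt (ENNReal.tsum_le_tsum h2) ?_)
        rw [ENNReal.tsum_mul_right]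
        exact ENNReal.mul_lt_top (lt_top_iff_ne_top.2 (tsum_enorm_ne_top ha))
          (ENNReal.mul_lt_top ENNReal.ofReal_lt_top (lt_top_iff_ne_top.2 hCt))
    have h4 : ∑' j, a j * Jw w K q (p j) r =
        ∫ z in ball q r, ∑' j, a j * (((w (z - q) : ℝ) : ℂ) * K z / (z - p j)) := by
      rw [h1]
      apply tsum_congr
      intro j
      unfold Jw
      rw [integral_const_mul]
    have h5 : ∀ᵐ z : ℂ ∂(volume.restrict (ball q r)),
        ∑' j, a j * (((w (z - q) : ℝ) : ℂ) * K z / (z - p j)) =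
          (((((w (z - q) : ℝ) : ℂ) * K z * H z).re : ℝ) : ℂ) := by
      filter_upwards [ae_restrict_of_ae hH, ae_restrict_of_ae hreal,
        ae_restrict_mem measurableSet_ball] with z hz hz2 hz3
      have hzb : z ∈ ball q r0 := ball_subset_ball hrr hz3
      obtain ⟨t, ht⟩ := hz2 hzb
      have h6 : ∀ j, a j * (((w (z - q) : ℝ) : ℂ) * K z / (z - p j)) =
          (((w (z - q) : ℝ) : ℂ) * K z) * (a j / (z - p j)) := by
        intro j; ring
      simp_rw [h6]
      rw [tsum_mul_left, ← hz.2]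
      have hkz : k z ≠ 0 := hk0 z (ball_subset_closedBall hzb)
      have h7 : ((w (z - q) : ℝ) : ℂ) * K z * H z = ((w (z - q) * t : ℝ) : ℂ) := by
        rw [ht, hKdef]
        push_cast
        field_simp
      rw [h7, Complex.ofReal_re]
    rw [h4, integral_congr_ae h5, integral_complex_ofReal, Complex.ofReal_im]
  -- the radii
  set ρ : ℕ → ℝ := fun n => r0 / ((n : ℝ) + 1) with hρ
  have hρ0 : ∀ n, 0 < ρ n := fun n => by rw [hρ]; positivity
  have hρr : ∀ n, ρ n ≤ r0 := fun n => by
    rw [hρ]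
    apply div_le_self hr00.le
    have : (0 : ℝ) ≤ n := Nat.cast_nonneg n
    linarith
  have hρt : Tendsto ρ atTop (𝓝 0) := by
    have := (tendsto_one_div_add_atTop_nhds_zero_nat (𝕜 := ℝ)).const_mul r0
    rw [mul_zero] at this
    refine this.congr fun n => ?_
    rw [hρ]
    ring
  have hρt' : Tendsto ρ atTop (𝓝[>] 0) :=
    tendsto_nhdsWithin_iff.2 ⟨hρt, Eventually.of_forall hρ0⟩
  have hz : ∀ n, (∑' j, a j * (Jw w K q (p j) (ρ n) / ((Real.pi * ρ n ^ 2 : ℝ) : ℂ))).im = 0 := by
    intro n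
    have h1 : ∀ j, a j * (Jw w K q (p j) (ρ n) / ((Real.pi * ρ n ^ 2 : ℝ) : ℂ)) =
        (a j * Jw w K q (p j) (ρ n)) * (((Real.pi * ρ n ^ 2)⁻¹ : ℝ) : ℂ) := by
      intro j
      push_cast
      ring
    simp_rw [h1]
    rw [tsum_mul_right, Complex.im_mul_ofReal, hsum _ (hρ0 n) (hρr n), zero_mul]
  have hlim : Tendsto (fun n => ∑' j, a j *
      (Jw w K q (p j) (ρ n) / ((Real.pi * ρ n ^ 2 : ℝ) : ℂ)))
      atTop (𝓝 (∑' j, (if p j = q then a j * (c * K q) else 0))) := by
    apply tendsto_tsum_of_dominated_convergence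
      (bound := fun j => ‖a j‖ * (M * C.toReal / Real.pi))
    · exact ha.mul_right _
    · intro j
      split_ifs with hj
      · rw [hj]
        exact ((Jw_self hw hwb hK hM hr00 hc).comp hρt').const_mul (a j)
      · have h0 : 0 < ‖p j - q‖ := norm_pos_iff.2 (sub_ne_zero.2 hj)
        rw [← mul_zero (a j)]
        apply Tendsto.const_mul
        have h1 : ∀ᶠ n in atTop, ρ n < ‖p j - q‖ / 2 :=
          hρt.eventually_lt_const (by linarith)
        have h2 : Tendsto (fun n => 2 * ρ n / ‖p j - q‖ * M) atTop (𝓝 0) := by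
          have := ((hρt.const_mul 2).div_const ‖p j - q‖).mul_const M
          simpa using this
        apply squeeze_zero_norm' _ h2
        filter_upwards [h1] with n hn
        have h3 := Jw_ne hwb hM (p j) hj hM0 (hρ0 n) (hρr n) (by linarith)
        have h4 : 0 < Real.pi * ρ n ^ 2 := by have := hρ0 n; positivity
        rw [norm_div, Complex.norm_real, Real.norm_of_nonneg h4.le, div_le_iff₀ h4]
        exact h3
    · refine Eventually.of_forall fun n j => ?_
      have h4 : 0 < Real.pi * ρ n ^ 2 := by have := hρ0 n; positivity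
      rw [norm_mul, norm_div, Complex.norm_real, Real.norm_of_nonneg h4.le]
      apply mul_le_mul_of_nonneg_left _ (norm_nonneg _)
      rw [div_le_div_iff₀ h4 Real.pi_pos]
      have h5 := normJw hwb hM hCt hC hM0 (hρ0 n) (hρr n) (p j)
      have h6 := Real.pi_pos
      nlinarith
  have h8 : (∑' j, (if p j = q then a j * (c * K q) else 0)).im = 0 := by
    have h9 := (Complex.continuous_im.tendsto _).comp hlim
    have h10 : (Complex.im ∘ fun n => ∑' j, a j *
        (Jw w K q (p j) (ρ n) / ((Real.pi * ρ n ^ 2 : ℝ) : ℂ))) = fun _ => (0 : ℝ) :=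
      funext hz
    rw [h10] at h9
    exact (tendsto_nhds_unique h9 tendsto_const_nhds)
  have h11 : ∑' j, (if p j = q then a j * (c * K q) else 0) =
      c * (k q)⁻¹ * ∑' j, (if p j = q then a j else 0) := by
    rw [← tsum_mul_left]
    apply tsum_congr
    intro j
    split_ifs
    · rw [hKdef]; ring
    · ring
  rw [← h11]
  exact h8

/-- the masses vanish -/
theorem mass_zero {a p : ℕ → ℂ} (ha : Summable fun j => ‖a j‖) {H k : ℂ → ℂ}
    (hH : ∀ᵐ z : ℂ, (Summable fun j => ‖a j / (z - p j)‖) ∧ H z = ∑' j, a j / (z - p j))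
    {y : ℂ} {R : ℝ} (hk : ContinuousOn k (ball y R)) (hk0 : ∀ z ∈ ball y R, k z ≠ 0)
    (hreal : ∀ᵐ z : ℂ, z ∈ ball y R → ∃ t : ℝ, H z = (t : ℂ) * k z) {q : ℂ} (hq : q ∈ ball y R) :
    ∑' j, (open Classical in if p j = q then a j else 0) = 0 := by
  classical
  obtain ⟨r0, hr0, hsub⟩ := Metric.nhds_basis_closedBall.mem_iff.1 (isOpen_ball.mem_nhds hq)
  have hre : ∀ᵐ z : ℂ, z ∈ ball q r0 → ∃ t : ℝ, H z = (t : ℂ) * k z := by
    filter_upwards [hreal] with z hz hz2
    exact hz (hsub (ball_subset_closedBall hz2))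
  have h1 := mass_lim ha hH hr0 (hk.mono hsub) (fun z hz => hk0 z (hsub hz)) hre
    (w := Complex.re) Complex.continuous_re Complex.abs_re_le_norm
    (c := 1 / 2) (fun r hr => int_re_div q hr)
  have h2 := mass_lim ha hH hr0 (hk.mono hsub) (fun z hz => hk0 z (hsub hz)) hre
    (w := Complex.im) Complex.continuous_im Complex.abs_im_le_norm
    (c := -Complex.I / 2) (fun r hr => int_im_div q hr)
  obtain ⟨m, hm⟩ : ∃ m, m = (k q)⁻¹ * ∑' j, (if p j = q then a j else 0) := ⟨_, rfl⟩
  rw [mul_assoc, ← hm] at h1 h2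
  have h3 : m.im = 0 := by
    have : ((1 : ℂ) / 2 * m).im = m.im / 2 := by
      simp [Complex.mul_im]
      ring
    rw [this] at h1
    linarith
  have h4 : m.re = 0 := by
    have : (-Complex.I / 2 * m).im = -(m.re) / 2 := by
      simp [Complex.mul_im]
      ring
    rw [this] at h2
    linarith
  have h5 : m = 0 := Complex.ext h4 h3
  rw [h5] at hm
  rcases mul_eq_zero.1 hm.symm with h | h
  · exact absurd (inv_eq_zero.1 h) (hk0 q hq)
  · exact h

/-! ### The theorem -/

/-- a series whose sums over the fibres vanish -/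
theorem sum_zero {f : ℕ → ℂ} (hf : Summable f) (p : ℕ → ℂ)
    (h : ∀ c : ℂ, ∑' j, (open Classical in if p j = c then f j else 0) = 0) :
    ∑' j, f j = 0 := by
  classical
  have h1 := hf.hasSum.tsum_fiberwise p
  have h2 : ∀ c : ℂ, ∑' b : p ⁻¹' {c}, f b = 0 := by
    intro c
    rw [tsum_subtype (p ⁻¹' {c}) f, ← h c]
    apply tsum_congr
    intro j
    by_cases hj : p j = c
    · rw [if_pos hj, indicator_of_mem]
      exact hj
    · rw [if_neg hj, indicator_of_notMem]
      exact hj
  simp_rw [h2] at h1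
  exact h1.unique hasSum_zero

theorem t_CONST : Pool.Agent.H211.HY.S_CONST := by
  classical
  intro H a p ha hH y R k hR hk hk0 hreal
  have hkc : ContinuousOn k (ball y R) := hk.continuousOn
  have hmass : ∀ q ∈ ball y R, ∑' j, (if p j = q then a j else 0) = 0 := by
    intro q hq
    have := mass_zero ha hH hkc hk0 hreal hq
    refine Eq.trans (tsum_congr fun j => ?_) this
    congr
  -- the part of the series with the poles outside
  obtain ⟨F, hF⟩ : ∃ F : ℂ → ℂ, F = fun z => ∑' j, (if p j ∈ ball y R then 0 else a j / (z - p j)) :=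
    ⟨_, rfl⟩
  have hFd : DifferentiableOn ℂ F (ball y R) := by
    intro z hz
    have hzr : dist z y < R := hz
    obtain ⟨r, h1, h2⟩ := exists_between hzr
    have h3 : DifferentiableOn ℂ F (ball y r) := by
      rw [hF]
      refine Complex.differentiableOn_tsum_of_summable_norm (u := fun j => ‖a j‖ * (R - r)⁻¹)
        (ha.mul_right _) ?_ isOpen_ball ?_
      · intro j
        split_ifs with hj
        · exact differentiableOn_const _
        · intro x hx
          have hne : x - p j ≠ 0 := by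
            intro h0
            apply hj
            rw [← sub_eq_zero.1 h0]
            exact ball_subset_ball h2.le hx
          have hd : DifferentiableAt ℂ (fun z : ℂ => a j / (z - p j)) x :=
            DifferentiableAt.div (differentiableAt_const (a j))
              (DifferentiableAt.sub differentiableAt_fun_id (differentiableAt_const (p j))) hne
          exact hd.differentiableWithinAt
      · intro j x hx
        have hRr : 0 < R - r := by linarith
        split_ifs with hj
        · rw [norm_zero]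
          positivity
        · rw [norm_div, div_eq_mul_inv]
          have h4 : R - r ≤ ‖x - p j‖ := by
            rw [mem_ball, not_lt] at hj
            have h5 : dist (p j) y ≤ dist x (p j) + dist x y := by
              rw [dist_comm x (p j)]
              exact dist_triangle _ _ _
            have h6 : dist x y < r := hx
            rw [← dist_eq_norm]
            linarith
          gcongr
    exact (h3.differentiableAt (isOpen_ball.mem_nhds h1)).differentiableWithinAt
  have hHF : ∀ᵐ z : ℂ, z ∈ ball y R → H z = F z := by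
    filter_upwards [hH] with z hz _
    have hs : Summable fun j => a j / (z - p j) := hz.1.of_norm
    have hs1 : Summable fun j => if p j ∈ ball y R then a j / (z - p j) else 0 := by
      refine Summable.of_norm_bounded hz.1 fun j => ?_
      split_ifs
      · exact le_rfl
      · rw [norm_zero]; exact norm_nonneg _
    have hs2 : Summable fun j => if p j ∈ ball y R then 0 else a j / (z - p j) := by
      refine Summable.of_norm_bounded hz.1 fun j => ?_
      split_ifs
      · rw [norm_zero]; exact norm_nonneg _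
      · exact le_rfl
    have h0 : ∑' j, (if p j ∈ ball y R then a j / (z - p j) else 0) = 0 := by
      apply sum_zero hs1 p
      intro c
      by_cases hc : c ∈ ball y R
      · have h1 : ∀ j, (open Classical in if p j = c then
            (if p j ∈ ball y R then a j / (z - p j) else 0) else 0) =
            (if p j = c then a j else 0) * (z - c)⁻¹ := by
          intro j
          by_cases hj : p j = c
          · rw [if_pos hj, if_pos hj, hj, if_pos hc, div_eq_mul_inv]
          · rw [if_neg hj, if_neg hj, zero_mul]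
        rw [tsum_congr h1, tsum_mul_right, hmass c hc, zero_mul]
      · have h1 : ∀ j, (open Classical in if p j = c then
            (if p j ∈ ball y R then a j / (z - p j) else 0) else 0) = 0 := by
          intro j
          by_cases hj : p j = c
          · rw [if_pos hj, hj, if_neg hc]
          · rw [if_neg hj]
        rw [tsum_congr h1, tsum_zero]
    calc H z = ∑' j, a j / (z - p j) := hz.2
      _ = ∑' j, ((if p j ∈ ball y R then a j / (z - p j) else 0) +
          (if p j ∈ ball y R then 0 else a j / (z - p j))) := by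
          apply tsum_congr
          intro j
          split_ifs <;> simp
      _ = F z := by
          rw [hs1.tsum_add hs2, h0, zero_add, hF]
  -- the quotient is real
  have hgd : DifferentiableOn ℂ (fun z => F z / k z) (ball y R) := hFd.div hk hk0
  have hga : AnalyticOnNhd ℂ (fun z => F z / k z) (ball y R) := hgd.analyticOnNhd isOpen_ball
  have him : ∀ z ∈ ball y R, (F z / k z).im = 0 := by
    have h1 : (fun z => (F z / k z).im) =ᵐ[(volume : Measure ℂ).restrict (ball y R)]
        fun _ => (0 : ℝ) := by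
      filter_upwards [ae_restrict_of_ae hHF, ae_restrict_of_ae hreal,
        ae_restrict_mem measurableSet_ball] with z hz hz2 hz3
      obtain ⟨t, ht⟩ := hz2 hz3
      rw [← hz hz3, ht, mul_div_cancel_right₀ _ (hk0 z hz3), Complex.ofReal_im]
    exact Measure.eqOn_open_of_ae_eq h1 isOpen_ball
      (Complex.continuous_im.comp_continuousOn hgd.continuousOn) continuousOn_const
  obtain ⟨t, ht⟩ := hga.eq_const_add_im_mul_I_of_re_eq_const him isOpen_ball
    ⟨⟨y, mem_ball_self hR⟩, (convex_ball y R).isPreconnected⟩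
  refine ⟨t, ?_⟩
  filter_upwards [hHF] with z hz hz2
  have h1 := ht z hz2
  rw [Complex.ofReal_zero, zero_mul, add_zero] at h1
  rw [hz hz2, ← h1, div_mul_cancel₀ _ (hk0 z hz2)]

end Pool.Agent.H344.HY211
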